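import Pool.Agent.H891R2.CA.Defs
import Pool.Agent.H891R2.MT.T2

/-! C1 (helper617): the dual of a plane ribbon graph. -/

set_option autoImplicit false

namespace Pool.Agent.H891R2.CA.C1

open Finset LaurentPolynomial Pool.Agent.H891R2.Jones Pool.Agent.H891R2.MT

variable {k : ℕ}

theorem flipE_apply (x : Fin k × Bool) : flipE k x = MT.flip x := rfl

theorem flip_flip (x : Fin k × Bool) : MT.flip (MT.flip x) = x := by
  unfold MT.flip
  exact Prod.ext rfl (Bool.not_not _)

theorem dual_rot (Γ : Ribbon k) (x : Fin k × Bool) : (dual Γ).rot x = MT.flip (Γ.rot x) := rfl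

/-- C1: the dual of a plane ribbon graph -/
theorem dual_dual (Γ : Ribbon k) : dual (dual Γ) = Γ := by
  have h : (dual (dual Γ)).rot = Γ.rot := by
    apply Equiv.ext
    intro x
    rw [dual_rot, dual_rot, flip_flip]
  cases Γ with
  | mk r =>
    have h2 : dual (dual (Ribbon.mk r)) = Ribbon.mk (dual (dual (Ribbon.mk r))).rot := rfl
    rw [h2, h]

theorem verts_dual (Γ : Ribbon k) : (dual Γ).verts = Γ.faces := rfl

theorem faces_dual (Γ : Ribbon k) : (dual Γ).faces = Γ.verts := by
  rw [← verts_dual, dual_dual]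

theorem comps_dual_univ (Γ : Ribbon k) : (dual Γ).comps univ = Γ.comps univ := by
  unfold Ribbon.comps
  apply MT.T2.card_quot_congr
  · intro x y h
    have hf : ∀ a : Fin k × Bool, Quot.mk (fun x y : Fin k × Bool => Γ.rot x = y ∨
        (x.1 ∈ univ ∧ y = MT.flip x)) a = Quot.mk _ (MT.flip a) :=
      fun a => Quot.sound (Or.inr ⟨mem_univ _, rfl⟩)
    rcases h with h | ⟨_, h⟩
    · rw [dual_rot] at h
      rw [← h, ← hf]
      exact Quot.sound (Or.inl rfl)
    · rw [h]
      exact hf x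
  · intro x y h
    have hf : ∀ a : Fin k × Bool, Quot.mk (fun x y : Fin k × Bool => (dual Γ).rot x = y ∨
        (x.1 ∈ univ ∧ y = MT.flip x)) a = Quot.mk _ (MT.flip a) :=
      fun a => Quot.sound (Or.inr ⟨mem_univ _, rfl⟩)
    rcases h with h | ⟨_, h⟩
    · rw [← h, hf (Γ.rot x)]
      exact Quot.sound (Or.inl rfl)
    · rw [h]
      exact hf x

theorem planar_dual (Γ : Ribbon k) (hΓ : Γ.Planar) : (dual Γ).Planar := by
  obtain ⟨h1, h2⟩ := hΓ
  refine ⟨?_, ?_⟩
  · rw [comps_dual_univ, h1]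
  · rw [verts_dual, faces_dual, add_comm, h2]

end Pool.Agent.H891R2.CA.C1
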