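import Pool.Agent.H891R2.CA.Defs
import Pool.Agent.H891R2.MT.T2

set_option autoImplicit false

/-! C2: the curves of the states of the dual; C11: the dual state sum. -/

namespace Pool.Agent.H891R2.CA.C2

open Finset LaurentPolynomial Pool.Agent.H891R2.Jones Pool.Agent.H891R2.MT

variable {k : ℕ}

theorem aS_compl (S : Finset (Fin k)) : T2.aS Sᶜ * flipE k = T2.aS S := by
  ext1 d
  have h1 : (flipE k) d = flip d := rfl
  rw [Equiv.Perm.mul_apply, h1, T2.aS_apply, T2.aS_apply]
  have h2 : (flip d).1 = d.1 := rfl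
  rw [h2]
  by_cases h : d.1 ∈ S
  · rw [if_pos h, if_neg (by simpa using h)]
  · rw [if_neg h, if_pos (by simpa using h), T2.flip_flip]

/-- C2: the curves of the states -/
theorem curves_dual (Γ : Ribbon k) (S : Finset (Fin k)) : (dual Γ).curves Sᶜ = Γ.curves S := by
  rw [T2.curves_cyc, T2.curves_cyc]
  have h : (dual Γ).rot = flipE k * Γ.rot := rfl
  rw [h, ← mul_assoc, aS_compl]

theorem card_compl_sdiff (R S : Finset (Fin k)) :
    (((Sᶜ \ R).card : ℕ) : ℤ) = k - R.card - (S \ R).card := by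
  have h1 : (Sᶜ \ R) ∪ (S \ R) = Rᶜ := by
    ext x
    simp only [Finset.mem_union, Finset.mem_sdiff, Finset.mem_compl]
    tauto
  have h2 : Disjoint (Sᶜ \ R) (S \ R) := by
    rw [Finset.disjoint_left]
    intro x hx hy
    simp only [Finset.mem_sdiff, Finset.mem_compl] at hx hy
    exact hx.1 hy.1
  have h3 := Finset.card_union_of_disjoint h2
  rw [h1, Finset.card_compl, Fintype.card_fin] at h3
  have h4 : R.card ≤ k := by
    have := Finset.card_le_univ R
    rwa [Fintype.card_fin] at this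
  omega

theorem card_compl_inter (R S : Finset (Fin k)) :
    (((Sᶜ ∩ R).card : ℕ) : ℤ) = R.card - (S ∩ R).card := by
  have h1 : (Sᶜ ∩ R) ∪ (S ∩ R) = R := by
    ext x
    simp only [Finset.mem_union, Finset.mem_inter, Finset.mem_compl]
    tauto
  have h2 : Disjoint (Sᶜ ∩ R) (S ∩ R) := by
    rw [Finset.disjoint_left]
    intro x hx hy
    simp only [Finset.mem_inter, Finset.mem_compl] at hx hy
    exact hx.1 hy.1
  have h3 := Finset.card_union_of_disjoint h2
  rw [h1] at h3
  omega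

theorem PP_dual_eq (Γ : Ribbon k) (R : Finset (Fin k)) :
    PP (dual Γ) R = T (2 * k - 4 * R.card) * invert (PP Γ R) := by
  unfold PP
  rw [map_sum, Finset.mul_sum]
  rw [← Equiv.sum_comp (Function.Involutive.toPerm _ (compl_involutive (α := Finset (Fin k))))
    (fun S => (T (2 * ((S \ R).card : ℤ) - 2 * (S ∩ R).card) : ℤ[T;T⁻¹]) *
      (-T 2 - T (-2)) ^ ((dual Γ).curves S - 1))]
  refine Finset.sum_congr rfl fun S _ => ?_
  show (T (2 * ((Sᶜ \ R).card : ℤ) - 2 * (Sᶜ ∩ R).card) : ℤ[T;T⁻¹]) *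
      (-T 2 - T (-2)) ^ ((dual Γ).curves Sᶜ - 1) = _
  rw [curves_dual, card_compl_sdiff, card_compl_inter, map_mul, map_pow, map_sub, map_neg,
    invert_T, invert_T, invert_T, neg_neg, ← mul_assoc, ← T_add]
  have e1 : (2 * ((k : ℤ) - R.card - (S \ R).card) - 2 * (R.card - (S ∩ R).card)) =
      (2 * k - 4 * R.card + -(2 * ((S \ R).card : ℤ) - 2 * (S ∩ R).card)) := by ring
  rw [e1]
  congr 2
  ring

theorem coeff_T_mul (f : ℤ[T;T⁻¹]) (m a : ℤ) : (T m * f).coeff a = f.coeff (a - m) := by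
  rw [mul_comm]
  have h := AddMonoidAlgebra.coeff_mul_single_eq_coeff_mul (r := (1 : ℤ)) (x := f) (m := m)
    (m₁ := a) (a - m) (fun m' _ => by constructor <;> intro h <;> omega)
  rw [mul_one] at h
  exact h

/-- C11: the dual state sum (uses C2) -/
theorem PP_dual (Γ : Ribbon k) (R : Finset (Fin k)) (j : ℤ) :
    (PP Γ R).coeff j = (PP (dual Γ) R).coeff (2 * k - 4 * R.card - j) := by
  rw [PP_dual_eq, coeff_T_mul, invert_apply]
  congr 1
  ring

end Pool.Agent.H891R2.CA.C2
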