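import Pool.Agent.H891R2.CA.Defs
import Pool.Agent.H891R2.MT.All

set_option autoImplicit false

/-! Euler's formula for the components of the dual graph. -/

namespace Pool.Agent.H891R2.CA.C4

open Finset LaurentPolynomial Pool.Agent.H891R2.Jones Pool.Agent.H891R2.MT

variable {k : ℕ}

/-- C4: Euler's formula for the components of the dual graph -/
theorem comps_dual (Γ : Ribbon k) (hΓ : Γ.Planar)
    (verts_dual : (dual Γ).verts = Γ.faces)
    (planar_dual : (dual Γ).Planar)
    (curves_dual : ∀ S : Finset (Fin k), (dual Γ).curves Sᶜ = Γ.curves S)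
    (H : Finset (Fin k)) :
    (dual Γ).comps Hᶜ + Γ.verts = H.card + Γ.comps H + 1 := by
  have h1 := MT.curves_eq Γ hΓ H
  have h2 := MT.curves_eq (dual Γ) planar_dual Hᶜ
  rw [curves_dual H, verts_dual] at h2
  have h3 : H.card + Hᶜ.card = k := by
    have := Finset.card_add_card_compl H
    simpa using this
  have h4 := hΓ.2
  omega

end Pool.Agent.H891R2.CA.C4
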