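import Pool.Agent.H891R2.CA.Defs

set_option autoImplicit false

/-!
C5a: subgraphs without bridges.
-/

namespace Pool.Agent.H891R2.CA.C5a

open Finset LaurentPolynomial Pool.Agent.H891R2.Jones Pool.Agent.H891R2.MT

variable {k : ℕ}

/-- the relation whose classes are the components of the spanning subgraph `S` -/
def rel (G : Ribbon k) (S : Finset (Fin k)) (x y : Fin k × Bool) : Prop :=
  G.rot x = y ∨ (x.1 ∈ S ∧ y = flip x)

lemma comps_eq (G : Ribbon k) (S : Finset (Fin k)) : G.comps S = Nat.card (Quot (rel G S)) := rfl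

lemma comps_empty (G : Ribbon k) : G.comps ∅ = G.verts := by
  unfold Ribbon.comps Ribbon.verts
  simp

instance (G : Ribbon k) (S : Finset (Fin k)) : Finite (Quot (rel G S)) :=
  Finite.of_surjective (Quot.mk _) Quot.mk_surjective

/-- if the two darts of `e` are already in the same component, adding `e` changes nothing -/
lemma comps_insert_of_eq (G : Ribbon k) (S : Finset (Fin k)) (e : Fin k)
    (h : Quot.mk (rel G S) (e, false) = Quot.mk (rel G S) (e, true)) :
    G.comps (insert e S) = G.comps S := by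
  rw [comps_eq, comps_eq]
  refine Nat.card_congr ⟨Quot.lift (Quot.mk (rel G S)) ?_,
    Quot.lift (Quot.mk (rel G (insert e S))) ?_, ?_, ?_⟩
  · rintro ⟨a, x⟩ b (h1 | ⟨h1, rfl⟩)
    · exact Quot.sound (Or.inl h1)
    · simp only [mem_insert] at h1
      rcases h1 with rfl | h1
      · cases x
        · exact h
        · exact h.symm
      · exact Quot.sound (Or.inr ⟨h1, rfl⟩)
  · rintro a b (h1 | ⟨h1, rfl⟩)
    · exact Quot.sound (Or.inl h1)
    · exact Quot.sound (Or.inr ⟨mem_insert_of_mem h1, rfl⟩)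
  · rintro ⟨a⟩; rfl
  · rintro ⟨a⟩; rfl

/-- the darts of a component -/
noncomputable def cls (G : Ribbon k) (S : Finset (Fin k)) (w : Quot (rel G S)) :
    Finset (Fin k × Bool) := by
  classical
  exact univ.filter (fun d => Quot.mk (rel G S) d = w)

lemma mem_cls (G : Ribbon k) (S : Finset (Fin k)) (w : Quot (rel G S)) (d : Fin k × Bool) :
    d ∈ cls G S w ↔ Quot.mk (rel G S) d = w := by
  unfold cls
  simp

lemma cls_rot (G : Ribbon k) (S : Finset (Fin k)) (w : Quot (rel G S)) (d : Fin k × Bool) :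
    G.rot d ∈ cls G S w ↔ d ∈ cls G S w := by
  rw [mem_cls, mem_cls]
  have h0 : rel G S d (G.rot d) := Or.inl rfl
  have : Quot.mk (rel G S) (G.rot d) = Quot.mk (rel G S) d := (Quot.sound h0).symm
  rw [this]

lemma mem_bd (W : Finset (Fin k × Bool)) (e : Fin k) :
    e ∈ bd W ↔ ¬ ((e, false) ∈ W ↔ (e, true) ∈ W) := by
  unfold bd
  simp

lemma cls_bd (G : Ribbon k) (S : Finset (Fin k)) (w : Quot (rel G S)) (e : Fin k) :
    e ∈ bd (cls G S w) → e ∉ S := by
  intro h he
  rw [mem_bd, mem_cls, mem_cls] at h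
  apply h
  have : Quot.mk (rel G S) (e, false) = Quot.mk (rel G S) (e, true) :=
    Quot.sound (Or.inr ⟨he, rfl⟩)
  rw [this]

/-- double counting -/
lemma count (G : Ribbon k) (H X : Finset (Fin k))
    (h1 : ∀ e ∈ H, Quot.mk (rel G Hᶜ) (e, false) ≠ Quot.mk (rel G Hᶜ) (e, true))
    [Fintype (Quot (rel G Hᶜ))] :
    ∑ w : Quot (rel G Hᶜ), (bd (cls G Hᶜ w) ∩ X).card = 2 * (H ∩ X).card := by
  classical
  have e1 : ∀ w : Quot (rel G Hᶜ), (bd (cls G Hᶜ w) ∩ X).card =
      ∑ e ∈ H ∩ X, if e ∈ bd (cls G Hᶜ w) then 1 else 0 := by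
    intro w
    rw [← card_filter]
    congr 1
    ext e
    simp only [mem_inter, mem_filter]
    constructor
    · rintro ⟨h2, h3⟩
      refine ⟨⟨?_, h3⟩, h2⟩
      have := cls_bd G Hᶜ w e h2
      simpa using this
    · rintro ⟨⟨-, h3⟩, h2⟩
      exact ⟨h2, h3⟩
  rw [sum_congr rfl fun w _ => e1 w, sum_comm]
  have e2 : ∀ e ∈ H ∩ X, (∑ w : Quot (rel G Hᶜ), if e ∈ bd (cls G Hᶜ w) then 1 else 0) = 2 := by
    intro e he
    rw [← card_filter]
    have hne := h1 e (mem_inter.1 he).1
    have : (univ.filter fun w : Quot (rel G Hᶜ) => e ∈ bd (cls G Hᶜ w)) =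
        {Quot.mk (rel G Hᶜ) (e, false), Quot.mk (rel G Hᶜ) (e, true)} := by
      ext w
      simp only [mem_filter, mem_univ, true_and, mem_insert, mem_singleton]
      rw [mem_bd, mem_cls, mem_cls]
      constructor
      · intro h
        by_cases h2 : Quot.mk (rel G Hᶜ) (e, false) = w
        · exact Or.inl h2.symm
        · right
          by_contra h3
          exact h ⟨fun h4 => absurd h4 h2, fun h4 => absurd h4.symm h3⟩
      · rintro (rfl | rfl)
        · intro h
          exact hne (h.1 rfl).symm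
        · intro h
          exact hne (h.2 rfl)
    rw [this, card_pair hne]
  rw [sum_congr rfl e2, sum_const, smul_eq_mul, mul_comm]

/-- C5a: subgraphs without bridges (uses C4) -/
theorem rank_bridgeless (hC4 : ∀ (Γ : Ribbon k), Γ.Planar → ∀ (H : Finset (Fin k)),
      (dual Γ).comps Hᶜ + Γ.verts = H.card + Γ.comps H + 1)
    (Γ : Ribbon k) (hΓ : Γ.Planar) (R : Finset (Fin k)) (hR : Dominated (dual Γ) R)
    (H : Finset (Fin k)) (hne : H.Nonempty) (hH : ∀ e ∈ H, Γ.comps (H.erase e) = Γ.comps H) :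
    (H ∩ R).card + H.card + Γ.comps H + 1 ≤ (H \ R).card + Γ.verts := by
  classical
  have hC := hC4 Γ hΓ
  set G := dual Γ with hG
  have hconn : G.comps univ = 1 := by
    have := hC ∅
    rw [compl_empty, card_empty, comps_empty] at this
    omega
  -- (1)
  have h1 : ∀ e ∈ H, Quot.mk (rel G Hᶜ) (e, false) ≠ Quot.mk (rel G Hᶜ) (e, true) := by
    intro e he h
    have h2 := comps_insert_of_eq G Hᶜ e h
    have h3 : insert e Hᶜ = (H.erase e)ᶜ := (compl_erase).symm
    rw [h3] at h2
    have h4 := hC H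
    have h5 := hC (H.erase e)
    rw [hH e he, card_erase_of_mem he, h2] at h5
    have h6 : 0 < H.card := card_pos.2 hne
    omega
  -- (2)
  have h2 : ∀ w : Quot (rel G Hᶜ), (bd (cls G Hᶜ w)).Nonempty := by
    intro w
    by_contra hemp
    rw [not_nonempty_iff_eq_empty] at hemp
    obtain ⟨d0, hd0⟩ := Quot.exists_rep w
    have hsub : Subsingleton (Quot (rel G univ)) := by
      have h3 : Nat.card (Quot (rel G univ)) = 1 := hconn
      exact (Nat.card_eq_one_iff_unique.1 h3).1
    have hresp : ∀ a b : Fin k × Bool, rel G univ a b →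
        (a ∈ cls G Hᶜ w) = (b ∈ cls G Hᶜ w) := by
      rintro ⟨e, x⟩ b (h3 | ⟨-, rfl⟩)
      · rw [← h3]
        exact propext (cls_rot G Hᶜ w (e, x)).symm
      · have h4 : e ∉ bd (cls G Hᶜ w) := by rw [hemp]; exact notMem_empty e
        rw [mem_bd, not_not] at h4
        cases x
        · exact propext h4
        · exact propext h4.symm
    have hall : ∀ d, d ∈ cls G Hᶜ w := by
      intro d
      have h3 : Quot.lift (fun a => a ∈ cls G Hᶜ w) hresp (Quot.mk _ d) =
          Quot.lift (fun a => a ∈ cls G Hᶜ w) hresp (Quot.mk _ d0) := by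
        rw [Subsingleton.elim (Quot.mk (rel G univ) d) (Quot.mk (rel G univ) d0)]
      have h4 : (d ∈ cls G Hᶜ w) = (d0 ∈ cls G Hᶜ w) := h3
      rw [h4, mem_cls]
      exact hd0
    obtain ⟨e, he⟩ := hne
    have h5 := hall (e, false)
    have h6 := hall (e, true)
    rw [mem_cls] at h5 h6
    exact h1 e he (h5.trans h6.symm)
  -- (3)
  haveI : Fintype (Quot (rel G Hᶜ)) := Fintype.ofFinite _
  have h3 : ∑ w : Quot (rel G Hᶜ), ((bd (cls G Hᶜ w) ∩ R).card + 2) ≤
      ∑ w : Quot (rel G Hᶜ), (bd (cls G Hᶜ w) \ R).card :=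
    sum_le_sum fun w _ => hR (cls G Hᶜ w) (cls_rot G Hᶜ w) (h2 w)
  have h4 : ∑ w : Quot (rel G Hᶜ), (bd (cls G Hᶜ w) \ R).card = 2 * (H \ R).card := by
    have := count G H Rᶜ h1
    have e1 : ∀ Y : Finset (Fin k), Y ∩ Rᶜ = Y \ R := fun Y => (sdiff_eq_inter_compl Y R).symm
    rw [e1] at this
    rw [← this]
    exact sum_congr rfl fun w _ => by rw [e1]
  rw [sum_add_distrib, count G H R h1, h4, sum_const, card_univ, smul_eq_mul,
    ← Nat.card_eq_fintype_card] at h3
  have h5 := hC H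
  rw [comps_eq] at h5
  omega

end Pool.Agent.H891R2.CA.C5a
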