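import Pool.Agent.H891R2.CA.Defs
import Pool.Agent.H891R2.MT.T3a

set_option autoImplicit false

/-! C5b: `rank_ineq` and C5c: `no_loops`. -/

namespace Pool.Agent.H891R2.CA.C5b

open Finset LaurentPolynomial Pool.Agent.H891R2.Jones Pool.Agent.H891R2.MT

variable {k : ℕ}

/-- the statement of `rank_bridgeless` (C5a) -/
def StRankBridgeless (k : ℕ) : Prop :=
  ∀ (Γ : Ribbon k), Γ.Planar → ∀ (R : Finset (Fin k)), Dominated (dual Γ) R →
    ∀ (H : Finset (Fin k)), H.Nonempty → (∀ e ∈ H, Γ.comps (H.erase e) = Γ.comps H) →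
    (H ∩ R).card + H.card + Γ.comps H + 1 ≤ (H \ R).card + Γ.verts

/-- the statement of `bridge_mono` (C6a) -/
def StBridgeMono (k : ℕ) : Prop :=
  ∀ (Γ : Ribbon k) (H S : Finset (Fin k)) (e : Fin k), e ∈ S → S ⊆ H →
    Γ.comps (H.erase e) = Γ.comps H + 1 → Γ.comps (S.erase e) = Γ.comps S + 1

theorem comps_empty (Γ : Ribbon k) : Γ.comps ∅ = Γ.verts := by
  unfold Ribbon.comps Ribbon.verts
  have : (fun x y : Fin k × Bool => Γ.rot x = y ∨ (x.1 ∈ (∅ : Finset (Fin k)) ∧ y = flip x)) =
      (fun x y : Fin k × Bool => Γ.rot x = y) := by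
    funext x y
    simp
  rw [this]

theorem comps_insert_le (Γ : Ribbon k) (S : Finset (Fin k)) (e : Fin k) :
    Γ.comps (insert e S) ≤ Γ.comps S := by
  rcases T3a.comps_insert Γ S e with ⟨_, h⟩ | ⟨_, h⟩ <;> omega

theorem comps_anti (Γ : Ribbon k) (S U : Finset (Fin k)) : Γ.comps (S ∪ U) ≤ Γ.comps S := by
  classical
  induction U using Finset.induction with
  | empty => simp
  | insert a U _ ih =>
    rw [Finset.union_insert]
    exact (comps_insert_le Γ _ a).trans ih

theorem rank_ineq (hRB : StRankBridgeless k) (hBM : StBridgeMono k)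
    (Γ : Ribbon k) (hΓ : Γ.Planar) (R : Finset (Fin k)) (hR : Dominated (dual Γ) R)
    (H : Finset (Fin k)) (hne : (H ∩ R).Nonempty)
    (hH : ∀ e ∈ H ∩ R, Γ.comps (H.erase e) = Γ.comps H) :
    Γ.comps H + 2 * (H ∩ R).card + 1 ≤ Γ.verts := by
  classical
  induction hn : H.card using Nat.strong_induction_on generalizing H with
  | _ n ih =>
    by_cases hb : ∃ b ∈ H, Γ.comps (H.erase b) = Γ.comps H + 1
    · obtain ⟨b, hbH, hb⟩ := hb
      have hbR : b ∉ R := by
        intro hbR
        have := hH b (mem_inter.2 ⟨hbH, hbR⟩)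
        omega
      have hint : (H.erase b) ∩ R = H ∩ R := by
        ext x
        simp only [mem_inter, mem_erase]
        constructor
        · rintro ⟨⟨_, h1⟩, h2⟩
          exact ⟨h1, h2⟩
        · rintro ⟨h1, h2⟩
          exact ⟨⟨fun hxb => hbR (hxb ▸ h2), h1⟩, h2⟩
      have hlt : (H.erase b).card < n := by
        rw [← hn]
        exact card_erase_lt_of_mem hbH
      have h1 := ih (H.erase b).card hlt (H.erase b) (by rw [hint]; exact hne) (by
        rw [hint]
        intro e he
        have heH : e ∈ H := (mem_inter.1 he).1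
        have heb : b ≠ e := fun h => hbR (h ▸ (mem_inter.1 he).2)
        have h2 := hBM Γ H (H.erase e) b (mem_erase.2 ⟨heb, hbH⟩) (erase_subset _ _) hb
        rw [erase_right_comm, h2, hH e he, hb]) rfl
      rw [hint] at h1
      omega
    · push Not at hb
      have h0 : ∀ e ∈ H, Γ.comps (H.erase e) = Γ.comps H := by
        intro e he
        have h1 := T3a.comps_erase Γ H e he
        have h2 := hb e he
        omega
      have h3 := hRB Γ hΓ R hR H (hne.mono inter_subset_left) h0
      have h4 := card_inter_add_card_sdiff H R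
      omega

theorem no_loops (hRB : StRankBridgeless k)
    (Γ : Ribbon k) (hΓ : Γ.Planar) (R : Finset (Fin k)) (hR : Dominated (dual Γ) R)
    (H : Finset (Fin k)) (hne : H.Nonempty) : Γ.comps H + 1 ≤ Γ.verts := by
  classical
  obtain ⟨e, he⟩ := hne
  by_contra hcon
  have h1 : Γ.comps H ≤ Γ.comps {e} := by
    have := comps_anti Γ {e} H
    rwa [Finset.union_eq_right.2 (singleton_subset_iff.2 he)] at this
  have h2 : Γ.comps {e} ≤ Γ.verts := by
    have := comps_anti Γ ∅ {e}
    rwa [Finset.empty_union, comps_empty] at this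
  have h3 : Γ.comps {e} = Γ.verts := by omega
  have h4 := hRB Γ hΓ R hR {e} (singleton_nonempty e) (by
    intro x hx
    rw [mem_singleton] at hx
    subst hx
    rw [Finset.erase_singleton, comps_empty, h3])
  have h5 : (({e} : Finset (Fin k)) \ R).card ≤ 1 := by
    refine (card_le_card sdiff_subset).trans ?_
    rw [card_singleton]
  rw [card_singleton, h3] at h4
  omega

end Pool.Agent.H891R2.CA.C5b
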