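import Pool.Agent.H891R2.CA.Defs

set_option autoImplicit false

/-!
C5d: the size
-/

namespace Pool.Agent.H891R2.CA.C5d

open Finset LaurentPolynomial Pool.Agent.H891R2.Jones Pool.Agent.H891R2.MT

variable {k : ℕ}

/-- there are no bridges -/
theorem no_bridge (Γ : Ribbon k) (hΓ : Γ.comps Finset.univ = 1) (R : Finset (Fin k))
    (h1 : Dominated Γ R) (e : Fin k) : Γ.comps (Finset.univ.erase e) = 1 := by
  classical
  obtain ⟨r, hr⟩ : ∃ r : Fin k × Bool → Fin k × Bool → Prop,
    r = fun x y => Γ.rot x = y ∨ (x.1 ∈ (Finset.univ.erase e : Finset (Fin k)) ∧ y = flip x) :=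
    ⟨_, rfl⟩
  obtain ⟨W, hW⟩ : ∃ W : Finset (Fin k × Bool),
    W = Finset.univ.filter (fun d => Quot.mk r d = Quot.mk r (e, false)) := ⟨_, rfl⟩
  have hWm : ∀ d, d ∈ W ↔ Quot.mk r d = Quot.mk r (e, false) := by
    intro d
    rw [hW]
    simp
  have hrot : ∀ d, Quot.mk r d = Quot.mk r (Γ.rot d) := by
    intro d
    apply Quot.sound
    rw [hr]
    exact Or.inl rfl
  have hrotW : ∀ d, Γ.rot d ∈ W ↔ d ∈ W := by
    intro d
    rw [hWm, hWm, hrot d]
  have hflip : ∀ d : Fin k × Bool, d.1 ≠ e → Quot.mk r d = Quot.mk r (flip d) := by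
    intro d hd
    apply Quot.sound
    rw [hr]
    exact Or.inr ⟨Finset.mem_erase.mpr ⟨hd, Finset.mem_univ _⟩, rfl⟩
  have hbd : bd W ⊆ {e} := by
    intro e' he'
    rw [Finset.mem_singleton]
    by_contra hne
    unfold bd at he'
    rw [Finset.mem_filter] at he'
    apply he'.2
    rw [hWm, hWm]
    have h2 := hflip (e', false) hne
    have h3 : flip ((e', false) : Fin k × Bool) = (e', true) := rfl
    rw [h3] at h2
    rw [h2]
  have hbd0 : bd W = ∅ := by
    by_contra hne
    have h2 := h1 W hrotW (Finset.nonempty_iff_ne_empty.mpr hne)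
    have h3 : (bd W \ R).card ≤ 1 := by
      calc (bd W \ R).card ≤ (bd W).card := Finset.card_le_card Finset.sdiff_subset
        _ ≤ ({e} : Finset (Fin k)).card := Finset.card_le_card hbd
        _ = 1 := Finset.card_singleton e
    omega
  have hf : ((e, false) : Fin k × Bool) ∈ W := by rw [hWm]
  have ht : ((e, true) : Fin k × Bool) ∈ W := by
    by_contra hcon
    have h2 : e ∈ bd W := by
      unfold bd
      rw [Finset.mem_filter]
      exact ⟨Finset.mem_univ _, fun h => hcon (h.mp hf)⟩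
    rw [hbd0] at h2
    exact absurd h2 (Finset.notMem_empty e)
  -- all darts are in `W`
  have hinv : ∀ x y : Fin k × Bool,
      (Γ.rot x = y ∨ (x.1 ∈ (Finset.univ : Finset (Fin k)) ∧ y = flip x)) →
        (x ∈ W) = (y ∈ W) := by
    intro x y hxy
    apply propext
    rcases hxy with h | ⟨-, h⟩
    · rw [← h]
      exact (hrotW x).symm
    · rw [h]
      by_cases hx : x.1 = e
      · obtain ⟨a, b⟩ := x
        simp only at hx
        subst hx
        cases b
        · exact ⟨fun _ => ht, fun _ => hf⟩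
        · exact ⟨fun _ => hf, fun _ => ht⟩
      · rw [hWm, hWm, hflip x hx]
  have hsub : Subsingleton (Quot (fun x y : Fin k × Bool =>
      Γ.rot x = y ∨ (x.1 ∈ (Finset.univ : Finset (Fin k)) ∧ y = flip x))) :=
    (Nat.card_eq_one_iff_unique.mp hΓ).1
  have hall : ∀ d, d ∈ W := by
    intro d
    have h2 : Quot.mk (fun x y : Fin k × Bool =>
      Γ.rot x = y ∨ (x.1 ∈ (Finset.univ : Finset (Fin k)) ∧ y = flip x)) d =
        Quot.mk _ (e, false) := Subsingleton.elim _ _
    have h3 := congrArg (Quot.lift (fun x => x ∈ W) hinv) h2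
    have h4 : (d ∈ W) = ((e, false) ∈ W) := h3
    rw [h4]
    exact hf
  have hgoal : Nat.card (Quot r) = 1 := by
    rw [Nat.card_eq_one_iff_unique]
    refine ⟨⟨?_⟩, ⟨Quot.mk r (e, false)⟩⟩
    intro a b
    induction a using Quot.ind with
    | _ a =>
      induction b using Quot.ind with
      | _ b => rw [(hWm a).mp (hall a), (hWm b).mp (hall b)]
  rw [hr] at hgoal
  exact hgoal

/-- C5d: the size (uses C5a) -/
theorem card_le
    (hC5a : ∀ (Γ : Ribbon k), Γ.Planar → ∀ R : Finset (Fin k), Dominated (dual Γ) R →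
      ∀ H : Finset (Fin k), H.Nonempty → (∀ e ∈ H, Γ.comps (H.erase e) = Γ.comps H) →
      (H ∩ R).card + H.card + Γ.comps H + 1 ≤ (H \ R).card + Γ.verts)
    (Γ : Ribbon k) (hΓ : Γ.Planar) (hk : 0 < k) (R : Finset (Fin k))
    (h1 : Dominated Γ R) (h2 : Dominated (dual Γ) R) : 2 * R.card + 2 ≤ Γ.verts := by
  have h3 := hC5a Γ hΓ R h2 Finset.univ ⟨⟨0, hk⟩, Finset.mem_univ _⟩
    (fun e _ => by rw [no_bridge Γ hΓ.1 R h1 e, hΓ.1])
  rw [Finset.univ_inter, Finset.card_univ, Fintype.card_fin, hΓ.1] at h3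
  have h4 : (Finset.univ \ R).card + R.card = k := by
    rw [Finset.card_sdiff_add_card_eq_card (Finset.subset_univ R), Finset.card_univ,
      Fintype.card_fin]
  omega

end Pool.Agent.H891R2.CA.C5d
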