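import Pool.Agent.H891R2.CA.Defs
import Pool.Agent.H891R2.MT.T3a

set_option autoImplicit false

/-!
C6: bridges of subgraphs.
-/

namespace Pool.Agent.H891R2.CA.C6

open Finset LaurentPolynomial Pool.Agent.H891R2.Jones Pool.Agent.H891R2.MT

variable {k : ℕ}

/-- C6a: a bridge of a graph is a bridge of every subgraph that contains it -/
theorem bridge_mono (Γ : Ribbon k) (H S : Finset (Fin k)) (e : Fin k) (heS : e ∈ S) (hSH : S ⊆ H)
    (he : Γ.comps (H.erase e) = Γ.comps H + 1) : Γ.comps (S.erase e) = Γ.comps S + 1 := by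
  have hsub : S.erase e ⊆ H.erase e := Finset.erase_subset_erase e hSH
  have h1 := T3a.comps_insert Γ (S.erase e) e
  have h2 := T3a.comps_insert Γ (H.erase e) e
  rw [Finset.insert_erase heS] at h1
  rw [Finset.insert_erase (hSH heS)] at h2
  rcases h1 with ⟨h1, _⟩ | ⟨_, h1⟩
  · exfalso
    rcases h2 with ⟨_, h2⟩ | ⟨h2, _⟩
    · omega
    · apply h2
      exact congrArg (Quot.lift (Quot.mk (T3a.rel Γ (H.erase e)))
        (fun x y h => Quot.sound (T3a.rel_mono Γ hsub x y h)) :
          Quot (T3a.rel Γ (S.erase e)) → Quot (T3a.rel Γ (H.erase e))) h1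
  · exact h1

/-- C6b: removing several bridges (uses C6a) -/
theorem bridges_union (Γ : Ribbon k) (H B S : Finset (Fin k)) (hB : B ⊆ H)
    (hbr : ∀ e ∈ B, Γ.comps (H.erase e) = Γ.comps H + 1) (hS : S ⊆ H) (hSB : Disjoint S B) :
    Γ.comps S = Γ.comps (S ∪ B) + B.card := by
  induction B using Finset.induction with
  | empty => simp
  | insert b B hb ih =>
    have hbH : b ∈ H := hB (Finset.mem_insert_self b B)
    have hBH : B ⊆ H := fun x hx => hB (Finset.mem_insert_of_mem hx)
    have hbS : b ∉ S := fun h => Finset.disjoint_left.1 hSB h (Finset.mem_insert_self b B)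
    have h1 := ih hBH (fun e he => hbr e (Finset.mem_insert_of_mem he))
      (hSB.mono_right (Finset.subset_insert b B))
    have h2 := bridge_mono Γ H (S ∪ insert b B) b
      (Finset.mem_union_right _ (Finset.mem_insert_self b B))
      (Finset.union_subset hS hB) (hbr b (Finset.mem_insert_self b B))
    have h3 : (S ∪ insert b B).erase b = S ∪ B := by
      rw [Finset.union_insert, Finset.erase_insert]
      simp [hbS, hb]
    rw [h3] at h2
    rw [Finset.card_insert_of_notMem hb, h1, h2]
    ring

end Pool.Agent.H891R2.CA.C6
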