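import Pool.Agent.H891R2.CA.Defs

set_option autoImplicit false

namespace Pool.Agent.H891R2.CA.C7

open Finset LaurentPolynomial Pool.Agent.H891R2.Jones Pool.Agent.H891R2.MT Pool.Agent.H891R2.CA

variable {k : ℕ}

/-- C7: the sum over the subsets of the set of bridges -/
theorem binomial (B : Finset (Fin k)) (x : ℕ) (hx : B.card ≤ x) :
    ∑ Q ∈ B.powerset, T (-2 * Q.card) * (-T 2 - T (-2) : ℤ[T;T⁻¹]) ^ (x - Q.card) =
      (-1) ^ B.card * T (2 * B.card) * (-T 2 - T (-2)) ^ (x - B.card) := by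
  obtain ⟨d, hd⟩ : ∃ d : ℤ[T;T⁻¹], d = -T 2 - T (-2) := ⟨_, rfl⟩
  rw [← hd]
  have h1 : ∀ Q ∈ B.powerset, (T (-2 * (Q.card : ℤ)) : ℤ[T;T⁻¹]) * d ^ (x - Q.card) =
      (T (-2) ^ Q.card * d ^ (B.card - Q.card)) * d ^ (x - B.card) := by
    intro Q hQ
    have hc : Q.card ≤ B.card := card_le_card (mem_powerset.mp hQ)
    rw [mul_assoc, ← pow_add, T_pow]
    congr 2
    · ring
    · omega
  rw [Finset.sum_congr rfl h1, ← Finset.sum_mul, Finset.sum_pow_mul_eq_add_pow]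
  congr 1
  have h2 : T (-2) + d = -T 2 := by rw [hd]; ring
  rw [h2, neg_pow, T_pow]
  congr 2
  ring

end Pool.Agent.H891R2.CA.C7
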