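import Pool.Agent.H891R2.CA.Defs
import Pool.Agent.H891R2.MT.T3a
import Pool.Agent.H891R2.MT.T4b

set_option autoImplicit false

/-! C8 (helper828): the blocks for `F ≠ ∅`. -/

namespace Pool.Agent.H891R2.CA.C8

open Finset LaurentPolynomial Pool.Agent.H891R2.Jones Pool.Agent.H891R2.MT
open Pool.Agent.H891R2.MT.T4b

variable {k : ℕ}

/-- the part of the state sum which belongs to the set `F` of edges outside `R` -/
noncomputable def blk (Γ : Ribbon k) (R F : Finset (Fin k)) : ℤ[T;T⁻¹] :=
  ∑ Q ∈ R.powerset, T (2 * F.card - 2 * Q.card) * (-T 2 - T (-2)) ^ (Γ.curves (F ∪ Q) - 1)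

theorem GE_add {f g : ℤ[T;T⁻¹]} {m : ℤ} (hf : GE f m) (hg : GE g m) : GE (f + g) m := by
  intro j hj
  by_cases h : f.coeff j = 0
  · apply hg j
    intro h'
    apply hj
    rw [AddMonoidAlgebra.coeff_add, Finsupp.add_apply, h, h', add_zero]
  · exact hf j h

theorem GE_sum {ι : Type} (s : Finset ι) (f : ι → ℤ[T;T⁻¹]) {m : ℤ}
    (h : ∀ i ∈ s, GE (f i) m) : GE (∑ i ∈ s, f i) m := by
  classical
  induction s using Finset.induction_on with
  | empty => intro j hj; exact absurd (by simp) hj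
  | insert a s ha ih =>
    rw [Finset.sum_insert ha]
    exact GE_add (h a (Finset.mem_insert_self _ _))
      (ih (fun i hi => h i (Finset.mem_insert_of_mem hi)))

/-- sums over the subsets of a disjoint union -/
theorem sum_split {M : Type} [AddCommMonoid M] (R B : Finset (Fin k)) (hB : B ⊆ R)
    (f : Finset (Fin k) → M) :
    ∑ Q ∈ R.powerset, f Q = ∑ Q' ∈ (R \ B).powerset, ∑ Q'' ∈ B.powerset, f (Q' ∪ Q'') := by
  rw [← Finset.sum_product']
  symm
  apply Finset.sum_nbij' (fun p => p.1 ∪ p.2) (fun Q => (Q \ B, Q ∩ B))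
  · rintro ⟨Q', Q''⟩ h
    rw [mem_product, mem_powerset, mem_powerset] at h
    rw [mem_powerset]
    exact union_subset (h.1.trans sdiff_subset) (h.2.trans hB)
  · intro Q h
    rw [mem_powerset] at h
    rw [mem_product, mem_powerset, mem_powerset]
    exact ⟨sdiff_subset_sdiff h le_rfl, inter_subset_right⟩
  · rintro ⟨Q', Q''⟩ h
    rw [mem_product, mem_powerset, mem_powerset] at h
    obtain ⟨h1, h2⟩ := h
    simp only at h1 h2
    have h3 : Disjoint Q' B := disjoint_of_subset_left h1 sdiff_disjoint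
    ext x
    · simp only [mem_sdiff, mem_union]
      constructor
      · rintro ⟨hx | hx, hb⟩
        · exact hx
        · exact absurd (h2 hx) hb
      · intro hx
        exact ⟨Or.inl hx, fun hb => disjoint_left.mp h3 hx hb⟩
    · simp only [mem_inter, mem_union]
      constructor
      · rintro ⟨hx | hx, hb⟩
        · exact absurd hb (disjoint_left.mp h3 hx)
        · exact hx
      · intro hx
        exact ⟨Or.inr hx, h2 hx⟩
  · intro Q _
    exact sdiff_union_inter Q B
  · intro p _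
    rfl

theorem curves_pos (Γ : Ribbon k) (hk : 0 < k) (S : Finset (Fin k)) : 1 ≤ Γ.curves S := by
  have : Nonempty (Quot (Γ.Cor S)) := ⟨Quot.mk _ ((⟨0, hk⟩, false), false)⟩
  exact Nat.card_pos

/-- C8: the blocks for `F ≠ ∅` -/
theorem blk_ge (Γ : Ribbon k)
    (bridges_union : ∀ H B S : Finset (Fin k), B ⊆ H →
      (∀ e ∈ B, Γ.comps (H.erase e) = Γ.comps H + 1) → S ⊆ H → Disjoint S B →
      Γ.comps S = Γ.comps (S ∪ B) + B.card)
    (binomial : ∀ (B : Finset (Fin k)) (x : ℕ), B.card ≤ x →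
      ∑ Q ∈ B.powerset, T (-2 * Q.card) * (-T 2 - T (-2) : ℤ[T;T⁻¹]) ^ (x - Q.card) =
        (-1) ^ B.card * T (2 * B.card) * (-T 2 - T (-2)) ^ (x - B.card))
    (hk : 0 < k) (R F : Finset (Fin k)) (hFR : Disjoint F R) (hF : F.Nonempty)
    (hcurves : ∀ S, (Γ.curves S : ℤ) = S.card - Γ.verts + 2 * Γ.comps S)
    (hrank : ∀ H : Finset (Fin k), (H ∩ R).Nonempty →
      (∀ e ∈ H ∩ R, Γ.comps (H.erase e) = Γ.comps H) → Γ.comps H + 2 * (H ∩ R).card + 1 ≤ Γ.verts)
    (hloop : ∀ H : Finset (Fin k), H.Nonempty → Γ.comps H + 1 ≤ Γ.verts) :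
    GE (blk Γ R F) (4 * R.card - 2 * Γ.verts + 6) := by
  classical
  set H := F ∪ R with hH
  set B := R.filter (fun e => Γ.comps (H.erase e) = Γ.comps H + 1) with hBdef
  have hBR : B ⊆ R := filter_subset _ _
  have hBbr : ∀ e ∈ B, Γ.comps (H.erase e) = Γ.comps H + 1 := fun e he => (mem_filter.mp he).2
  have hBH : B ⊆ H := hBR.trans subset_union_right
  have hcardR : R.card = (R \ B).card + B.card := by
    rw [card_sdiff_of_subset hBR]
    have := card_le_card hBR
    omega
  have hdis : ∀ Q' ⊆ R \ B, Disjoint (F ∪ Q') B := by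
    intro Q' hQ'
    rw [disjoint_union_left]
    exact ⟨disjoint_of_subset_right hBR hFR, disjoint_of_subset_left hQ' sdiff_disjoint⟩
  -- components of the pieces
  have hcomp : ∀ Q' ⊆ R \ B, ∀ Q'' ⊆ B,
      Γ.comps (F ∪ Q') = Γ.comps (F ∪ (Q' ∪ Q'')) + Q''.card := by
    intro Q' hQ' Q'' hQ''
    rw [← union_assoc]
    exact bridges_union H Q'' (F ∪ Q') (hQ''.trans hBH) (fun e he => hBbr e (hQ'' he))
      (union_subset_union le_rfl (hQ'.trans sdiff_subset))
      (disjoint_of_subset_right hQ'' (hdis Q' hQ'))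
  have hcardU : ∀ Q ⊆ R, (F ∪ Q).card = F.card + Q.card := fun Q hQ =>
    card_union_of_disjoint (disjoint_of_subset_right hQ hFR)
  have hcurv : ∀ Q' ⊆ R \ B, ∀ Q'' ⊆ B,
      Γ.curves (F ∪ Q') = Γ.curves (F ∪ (Q' ∪ Q'')) + Q''.card := by
    intro Q' hQ' Q'' hQ''
    have e1 := hcurves (F ∪ Q')
    have e2 := hcurves (F ∪ (Q' ∪ Q''))
    have e3 := hcomp Q' hQ' Q'' hQ''
    have e4 := hcardU Q' (hQ'.trans sdiff_subset)
    have e5 := hcardU (Q' ∪ Q'') (union_subset (hQ'.trans sdiff_subset) (hQ''.trans hBR))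
    have e6 : (Q' ∪ Q'').card = Q'.card + Q''.card :=
      card_union_of_disjoint (disjoint_of_subset_right hQ''
        (disjoint_of_subset_left hQ' sdiff_disjoint))
    have e7 : (Γ.curves (F ∪ Q') : ℤ) = Γ.curves (F ∪ (Q' ∪ Q'')) + Q''.card := by
      rw [e1, e2, e3, e4, e5, e6]; push_cast; ring
    exact_mod_cast e7
  -- the rank inequality
  have hmain : Γ.comps (F ∪ (R \ B)) + 2 * (R \ B).card + 1 ≤ Γ.verts := by
    by_cases hne : (R \ B).Nonempty
    · have h1 : (F ∪ (R \ B)) ∩ R = R \ B := by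
        ext x
        simp only [mem_inter, mem_union, mem_sdiff]
        constructor
        · rintro ⟨h | h, hR⟩
          · exact absurd hR (disjoint_left.mp hFR h)
          · exact h
        · intro h
          exact ⟨Or.inr h, h.1⟩
      have h2 := hrank (F ∪ (R \ B)) (by rw [h1]; exact hne)
      rw [h1] at h2
      apply h2
      intro e he
      have heR : e ∈ R := (mem_sdiff.mp he).1
      have heB : e ∉ B := (mem_sdiff.mp he).2
      have heH : e ∈ H := mem_union_right _ heR
      have h3 : Γ.comps (H.erase e) = Γ.comps H := by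
        have h4 := T3a.comps_erase Γ H e heH
        have h5 : Γ.comps (H.erase e) ≠ Γ.comps H + 1 := fun h => heB (mem_filter.mpr ⟨heR, h⟩)
        omega
      have hunion : F ∪ (R \ B) ∪ B = H := by
        rw [union_assoc, sdiff_union_of_subset hBR]
      have h6 := bridges_union H B (F ∪ (R \ B)) hBH hBbr
        (union_subset_union le_rfl sdiff_subset) (hdis _ le_rfl)
      rw [hunion] at h6
      have h7 := bridges_union H B ((F ∪ (R \ B)).erase e) hBH hBbr
        ((erase_subset _ _).trans (union_subset_union le_rfl sdiff_subset))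
        (disjoint_of_subset_left (erase_subset _ _) (hdis _ le_rfl))
      have h8 : (F ∪ (R \ B)).erase e ∪ B = H.erase e := by
        ext x
        by_cases hxe : x = e
        · subst hxe
          simp [heB]
        · have : x ∈ F ∪ (R \ B) ∪ B ↔ x ∈ H := by rw [hunion]
          simp only [mem_union, mem_erase] at this ⊢
          tauto
      rw [h8, h3, ← h6] at h7
      exact h7
    · rw [not_nonempty_iff_eq_empty] at hne
      rw [hne, union_empty, card_empty]
      have := hloop F hF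
      omega
  -- the sum
  have hsum : blk Γ R F = ∑ Q' ∈ (R \ B).powerset, T (2 * F.card - 2 * Q'.card) *
      ((-1) ^ B.card * T (2 * B.card) * (-T 2 - T (-2)) ^ (Γ.curves (F ∪ Q') - 1 - B.card)) := by
    unfold blk
    rw [sum_split R B hBR]
    apply Finset.sum_congr rfl
    intro Q' hQ'
    rw [mem_powerset] at hQ'
    have hx : B.card ≤ Γ.curves (F ∪ Q') - 1 := by
      have h1 := hcurv Q' hQ' B le_rfl
      have h2 := curves_pos Γ hk (F ∪ (Q' ∪ B))
      omega
    rw [← binomial B _ hx, mul_sum]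
    apply Finset.sum_congr rfl
    intro Q'' hQ''
    rw [mem_powerset] at hQ''
    have h1 := hcurv Q' hQ' Q'' hQ''
    have h3 : Γ.curves (F ∪ (Q' ∪ Q'')) - 1 = Γ.curves (F ∪ Q') - 1 - Q''.card := by omega
    have h4 : (Q' ∪ Q'').card = Q'.card + Q''.card :=
      card_union_of_disjoint (disjoint_of_subset_right hQ''
        (disjoint_of_subset_left hQ' sdiff_disjoint))
    rw [h3, ← mul_assoc, ← T_add, h4]
    congr 2
    push_cast; ring
  rw [hsum]
  apply GE_sum
  intro Q' hQ'
  rw [mem_powerset] at hQ'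
  have hx : B.card ≤ Γ.curves (F ∪ Q') - 1 := by
    have h1 := hcurv Q' hQ' B le_rfl
    have h2 := curves_pos Γ hk (F ∪ (Q' ∪ B))
    omega
  have hx1 := curves_pos Γ hk (F ∪ Q')
  have hS := (SIn.T (2 * (F.card : ℤ) - 2 * Q'.card)).mul
    (((SIn_sgn B.card).mul (SIn.T (2 * (B.card : ℤ)))).mul
      (SIn_d.pow (Γ.curves (F ∪ Q') - 1 - B.card)))
  intro j hj
  refine le_trans ?_ (hS j hj).1
  have h1 := hcurves (F ∪ Q')
  have h2 := hcardU Q' (hQ'.trans sdiff_subset)
  have h3 := T3a.mono Γ (F ∪ (R \ B)).card (F ∪ Q') (F ∪ (R \ B)) (by omega)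
    (union_subset_union le_rfl hQ')
  rw [h2, hcardU _ sdiff_subset] at h3
  rw [h2] at h1
  have h4 : ((Γ.curves (F ∪ Q') - 1 - B.card : ℕ) : ℤ) = Γ.curves (F ∪ Q') - 1 - B.card := by
    omega
  rw [h4, h1]
  push_cast
  omega

end Pool.Agent.H891R2.CA.C8
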