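import Pool.Agent.H891R2.CA.Defs
import Pool.Agent.H891R2.MT.T3a

set_option autoImplicit false

/-!
C9: the block `F = ∅` of the state sum.
-/

namespace Pool.Agent.H891R2.CA.C9

open Finset LaurentPolynomial Pool.Agent.H891R2.Jones Pool.Agent.H891R2.MT

variable {k : ℕ}

/-- the part of the state sum which belongs to the set `F` of edges outside `R` -/
noncomputable def blk (Γ : Ribbon k) (R F : Finset (Fin k)) : ℤ[T;T⁻¹] :=
  ∑ Q ∈ R.powerset, T (2 * F.card - 2 * Q.card) * (-T 2 - T (-2)) ^ (Γ.curves (F ∪ Q) - 1)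

theorem comps_empty (Γ : Ribbon k) : Γ.comps ∅ = Γ.verts := by
  unfold Ribbon.comps Ribbon.verts
  have : (fun x y : Fin k × Bool => Γ.rot x = y ∨ (x.1 ∈ (∅ : Finset (Fin k)) ∧ y = flip x)) =
      (fun x y : Fin k × Bool => Γ.rot x = y) := by
    funext x y
    simp
  rw [this]

theorem curves_pos (Γ : Ribbon k) (hk : 0 < k) (S : Finset (Fin k)) : 0 < Γ.curves S := by
  unfold Ribbon.curves
  have : Nonempty (Quot (Γ.Cor S)) := ⟨Quot.mk _ ((⟨0, hk⟩, true), true)⟩
  have : Finite (Quot (Γ.Cor S)) := Quot.finite _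
  exact Nat.card_pos

/-- all edges of `R` are bridges of `R` -/
theorem all_bridges (Γ : Ribbon k) (R : Finset (Fin k))
    (hbu : ∀ H B S : Finset (Fin k), B ⊆ H → (∀ e ∈ B, Γ.comps (H.erase e) = Γ.comps H + 1) →
      S ⊆ H → Disjoint S B → Γ.comps S = Γ.comps (S ∪ B) + B.card)
    (hrank : ∀ H : Finset (Fin k), (H ∩ R).Nonempty →
      (∀ e ∈ H ∩ R, Γ.comps (H.erase e) = Γ.comps H) → Γ.comps H + 2 * (H ∩ R).card + 1 ≤ Γ.verts) :
    ∀ e ∈ R, Γ.comps (R.erase e) = Γ.comps R + 1 := by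
  classical
  set B := R.filter (fun e => Γ.comps (R.erase e) = Γ.comps R + 1) with hB
  have hBR : B ⊆ R := Finset.filter_subset _ _
  have hbr : ∀ e ∈ B, Γ.comps (R.erase e) = Γ.comps R + 1 := fun e he => (Finset.mem_filter.1 he).2
  by_contra hcon
  push Not at hcon
  obtain ⟨e0, he0, hne0⟩ := hcon
  have he0B : e0 ∉ B := fun h => hne0 (hbr e0 h)
  have hdisj : Disjoint (R \ B) B := Finset.sdiff_disjoint
  have hint : (R \ B) ∩ R = R \ B := Finset.inter_eq_left.2 Finset.sdiff_subset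
  have h1 := hbu R B (R \ B) hBR hbr Finset.sdiff_subset hdisj
  rw [Finset.sdiff_union_of_subset hBR] at h1
  have h2 := hrank (R \ B) (by rw [hint]; exact ⟨e0, Finset.mem_sdiff.2 ⟨he0, he0B⟩⟩) (by
    intro e he
    rw [hint] at he
    obtain ⟨heR, heB⟩ := Finset.mem_sdiff.1 he
    have h3 := hbu R B ((R \ B).erase e) hBR hbr
      ((Finset.erase_subset _ _).trans Finset.sdiff_subset)
      (Finset.disjoint_of_subset_left (Finset.erase_subset _ _) hdisj)
    have h4 : (R \ B).erase e ∪ B = R.erase e := by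
      ext x
      simp only [Finset.mem_union, Finset.mem_erase, Finset.mem_sdiff]
      constructor
      · rintro (⟨h, h', _⟩ | h)
        · exact ⟨h, h'⟩
        · exact ⟨fun hx => heB (hx ▸ h), hBR h⟩
      · rintro ⟨h, h'⟩
        by_cases hx : x ∈ B
        · exact Or.inr hx
        · exact Or.inl ⟨h, h', hx⟩
    rw [h4] at h3
    have h5 := T3a.comps_erase Γ R e heR
    have h6 : Γ.comps (R.erase e) ≠ Γ.comps R + 1 := fun h => heB (Finset.mem_filter.2 ⟨heR, h⟩)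
    omega)
  rw [hint] at h2
  have h7 := T3a.mono Γ (R \ B).card ∅ (R \ B) (by simp) (Finset.empty_subset _)
  rw [comps_empty, Finset.card_empty] at h7
  have h8 : 0 < (R \ B).card := Finset.card_pos.2 ⟨e0, Finset.mem_sdiff.2 ⟨he0, he0B⟩⟩
  omega

/-- C9: the block `F = ∅` -/
theorem blk_empty (Γ : Ribbon k) (hk : 0 < k) (R : Finset (Fin k))
    (hcurves : ∀ S, (Γ.curves S : ℤ) = S.card - Γ.verts + 2 * Γ.comps S)
    (hrank : ∀ H : Finset (Fin k), (H ∩ R).Nonempty →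
      (∀ e ∈ H ∩ R, Γ.comps (H.erase e) = Γ.comps H) → Γ.comps H + 2 * (H ∩ R).card + 1 ≤ Γ.verts)
    (hbu : ∀ H B S : Finset (Fin k), B ⊆ H → (∀ e ∈ B, Γ.comps (H.erase e) = Γ.comps H + 1) →
      S ⊆ H → Disjoint S B → Γ.comps S = Γ.comps (S ∪ B) + B.card)
    (hbin : ∀ (B : Finset (Fin k)) (x : ℕ) (_ : B.card ≤ x),
      ∑ Q ∈ B.powerset, T (-2 * Q.card) * (-T 2 - T (-2) : ℤ[T;T⁻¹]) ^ (x - Q.card) =
      (-1) ^ B.card * T (2 * B.card) * (-T 2 - T (-2)) ^ (x - B.card)) :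
    R.card + 1 ≤ Γ.verts ∧
    blk Γ R ∅ = (-1) ^ R.card * T (2 * R.card) * (-T 2 - T (-2)) ^ (Γ.verts - 1 - R.card) := by
  have hall := all_bridges Γ R hbu hrank
  have hQ : ∀ Q ⊆ R, Γ.comps Q + Q.card = Γ.verts := by
    intro Q hQR
    have h := hbu R Q ∅ hQR (fun e he => hall e (hQR he)) (Finset.empty_subset _)
      (Finset.disjoint_empty_left _)
    rw [Finset.empty_union, comps_empty] at h
    exact h.symm
  have hcur : ∀ Q ⊆ R, Γ.curves Q + Q.card = Γ.verts := by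
    intro Q hQR
    have h1 := hcurves Q
    have h2 := hQ Q hQR
    omega
  have hv : R.card + 1 ≤ Γ.verts := by
    have h1 := hcur R subset_rfl
    have h2 := curves_pos Γ hk R
    omega
  refine ⟨hv, ?_⟩
  have h := hbin R (Γ.verts - 1) (by omega)
  rw [← h]
  unfold blk
  apply Finset.sum_congr rfl
  intro Q hQR
  rw [Finset.mem_powerset] at hQR
  have h1 := hcur Q hQR
  rw [Finset.empty_union, Finset.card_empty]
  have e1 : (2 * ((0 : ℕ) : ℤ) - 2 * (Q.card : ℤ)) = -2 * (Q.card : ℤ) := by push_cast; ring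
  have e2 : Γ.curves Q - 1 = Γ.verts - 1 - Q.card := by omega
  rw [e1, e2]

end Pool.Agent.H891R2.CA.C9
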