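import Pool.Agent.H891R2.MT.Defs

set_option autoImplicit false

/-!
Alternating diagrams with changed crossings.
-/

namespace Pool.Agent.H891R2.CA

open Finset LaurentPolynomial Pool.Agent.H891R2.Jones Pool.Agent.H891R2.MT

variable {k : ℕ}

/-- the permutation which exchanges the two darts of every edge -/
def flipE (k : ℕ) : Equiv.Perm (Fin k × Bool) := Equiv.prodCongr (Equiv.refl _) Equiv.boolNot

/-- The dual ribbon graph: its vertices (cycles of `rot`) are the faces of `Γ`, the cycles of
`x ↦ flip (rot x)`; it has the same edges. -/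
def dual (Γ : Ribbon k) : Ribbon k := ⟨Γ.rot.trans (flipE k)⟩

/-- the edges which have exactly one of their two darts in `W` -/
def bd (W : Finset (Fin k × Bool)) : Finset (Fin k) := 
  Finset.univ.filter (fun e => ¬ ((e, false) ∈ W ↔ (e, true) ∈ W))

/-- Every nonempty cut of `Γ` (the set `bd W` of edges between a set of vertices and the other
vertices; a set of vertices is given by the set `W` of the darts at these vertices) contains at
least two more edges outside `R` than edges of `R`. -/
def Dominated (Γ : Ribbon k) (R : Finset (Fin k)) : Prop :=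
  ∀ W : Finset (Fin k × Bool), (∀ d, Γ.rot d ∈ W ↔ d ∈ W) → (bd W).Nonempty → 
    (bd W ∩ R).card + 2 ≤ (bd W \ R).card

/-- one crossing at every edge, of the kind `-1` for the edges in `R` and of the kind `1` for the
other edges -/
def sg (R : Finset (Fin k)) (e : Fin k) : ℤ := if e ∈ R then -1 else 1

/-! ### auxiliary notions -/

/-- the bracket of the diagram `Γ.link (sg R)` times `A^{k - 2 |R|}` -/
noncomputable def PP (Γ : Ribbon k) (R : Finset (Fin k)) : ℤ[T;T⁻¹] :=
  ∑ S : Finset (Fin k), T (2 * (S \ R).card - 2 * (S ∩ R).card) * (-T 2 - T (-2)) ^ (Γ.curves S - 1)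

/-- `f` has no coefficients below `m` -/
def GE (f : ℤ[T;T⁻¹]) (m : ℤ) : Prop := ∀ j, f.coeff j ≠ 0 → m ≤ j

end Pool.Agent.H891R2.CA
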