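import Pool.Agent.H891R2.CA.Defs
import Pool.Agent.H891R2.MT.All
import Pool.Agent.H891R2.MT.T4b
import Pool.Agent.H891R2.MT.T6

set_option autoImplicit false

/-! Statements of the tasks (for distribution only; do not import). -/

namespace Pool.Agent.H891R2.CA

open Finset LaurentPolynomial Pool.Agent.H891R2.Jones Pool.Agent.H891R2.MT

variable {k : ℕ}

/-- C1: the dual of a plane ribbon graph -/
theorem dual_dual (Γ : Ribbon k) : dual (dual Γ) = Γ := by
  sorry

theorem verts_dual (Γ : Ribbon k) : (dual Γ).verts = Γ.faces := by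
  sorry

theorem planar_dual (Γ : Ribbon k) (hΓ : Γ.Planar) : (dual Γ).Planar := by
  sorry

/-- C2: the curves of the states -/
theorem curves_dual (Γ : Ribbon k) (S : Finset (Fin k)) : (dual Γ).curves Sᶜ = Γ.curves S := by
  sorry

/-- C3: the state sum -/
theorem bracket_eq (Γ : Ribbon k) (hk : 0 < k) (R : Finset (Fin k)) :
    (Γ.link (sg R)).std.bracket = T (2 * R.card - k) * PP Γ R := by
  sorry

/-- C4: Euler's formula for the components of the dual graph (uses C1, C2) -/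
theorem comps_dual (Γ : Ribbon k) (hΓ : Γ.Planar) (H : Finset (Fin k)) :
    (dual Γ).comps Hᶜ + Γ.verts = H.card + Γ.comps H + 1 := by
  sorry

/-- C5a: subgraphs without bridges (uses C4) -/
theorem rank_bridgeless (Γ : Ribbon k) (hΓ : Γ.Planar) (R : Finset (Fin k)) (hR : Dominated (dual Γ) R)
    (H : Finset (Fin k)) (hne : H.Nonempty) (hH : ∀ e ∈ H, Γ.comps (H.erase e) = Γ.comps H) :
    (H ∩ R).card + H.card + Γ.comps H + 1 ≤ (H \ R).card + Γ.verts := by
  sorry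

/-- C6a: a bridge of a graph is a bridge of every subgraph that contains it -/
theorem bridge_mono (Γ : Ribbon k) (H S : Finset (Fin k)) (e : Fin k) (heS : e ∈ S) (hSH : S ⊆ H)
    (he : Γ.comps (H.erase e) = Γ.comps H + 1) : Γ.comps (S.erase e) = Γ.comps S + 1 := by
  sorry

/-- C6b: removing several bridges (uses C6a) -/
theorem bridges_union (Γ : Ribbon k) (H B S : Finset (Fin k)) (hB : B ⊆ H)
    (hbr : ∀ e ∈ B, Γ.comps (H.erase e) = Γ.comps H + 1) (hS : S ⊆ H) (hSB : Disjoint S B) :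
    Γ.comps S = Γ.comps (S ∪ B) + B.card := by
  sorry

/-- C5b: the rank inequality (uses C5a, C6b) -/
theorem rank_ineq (Γ : Ribbon k) (hΓ : Γ.Planar) (R : Finset (Fin k)) (hR : Dominated (dual Γ) R)
    (H : Finset (Fin k)) (hne : (H ∩ R).Nonempty) 
    (hH : ∀ e ∈ H ∩ R, Γ.comps (H.erase e) = Γ.comps H) :
    Γ.comps H + 2 * (H ∩ R).card + 1 ≤ Γ.verts := by
  sorry

/-- C5c: there are no loops (uses C5a) -/
theorem no_loops (Γ : Ribbon k) (hΓ : Γ.Planar) (R : Finset (Fin k)) (hR : Dominated (dual Γ) R)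
    (H : Finset (Fin k)) (hne : H.Nonempty) : Γ.comps H + 1 ≤ Γ.verts := by
  sorry

/-- C5d: the size (uses C5a) -/
theorem card_le (Γ : Ribbon k) (hΓ : Γ.Planar) (hk : 0 < k) (R : Finset (Fin k)) 
    (h1 : Dominated Γ R) (h2 : Dominated (dual Γ) R) : 2 * R.card + 2 ≤ Γ.verts := by
  sorry

/-- C7: the sum over the subsets of the set of bridges -/
theorem binomial (B : Finset (Fin k)) (x : ℕ) (hx : B.card ≤ x) :
    ∑ Q ∈ B.powerset, T (-2 * Q.card) * (-T 2 - T (-2) : ℤ[T;T⁻¹]) ^ (x - Q.card) =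
      (-1) ^ B.card * T (2 * B.card) * (-T 2 - T (-2)) ^ (x - B.card) := by
  sorry

/-- the part of the state sum which belongs to the set `F` of edges outside `R` -/
noncomputable def blk (Γ : Ribbon k) (R F : Finset (Fin k)) : ℤ[T;T⁻¹] :=
  ∑ Q ∈ R.powerset, T (2 * F.card - 2 * Q.card) * (-T 2 - T (-2)) ^ (Γ.curves (F ∪ Q) - 1)

/-- C8: the blocks for `F ≠ ∅` (uses C6b, C7 and the inequalities of C5) -/
theorem blk_ge (Γ : Ribbon k) (hk : 0 < k) (R F : Finset (Fin k)) (hFR : Disjoint F R) (hF : F.Nonempty)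
    (hcurves : ∀ S, (Γ.curves S : ℤ) = S.card - Γ.verts + 2 * Γ.comps S)
    (hrank : ∀ H : Finset (Fin k), (H ∩ R).Nonempty → 
      (∀ e ∈ H ∩ R, Γ.comps (H.erase e) = Γ.comps H) → Γ.comps H + 2 * (H ∩ R).card + 1 ≤ Γ.verts)
    (hloop : ∀ H : Finset (Fin k), H.Nonempty → Γ.comps H + 1 ≤ Γ.verts) :
    GE (blk Γ R F) (4 * R.card - 2 * Γ.verts + 6) := by
  sorry

/-- C9: the block `F = ∅` -/
theorem blk_empty (Γ : Ribbon k) (hk : 0 < k) (R : Finset (Fin k)) 
    (hcurves : ∀ S, (Γ.curves S : ℤ) = S.card - Γ.verts + 2 * Γ.comps S)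
    (hrank : ∀ H : Finset (Fin k), (H ∩ R).Nonempty → 
      (∀ e ∈ H ∩ R, Γ.comps (H.erase e) = Γ.comps H) → Γ.comps H + 2 * (H ∩ R).card + 1 ≤ Γ.verts) :
    R.card + 1 ≤ Γ.verts ∧ 
    blk Γ R ∅ = (-1) ^ R.card * T (2 * R.card) * (-T 2 - T (-2)) ^ (Γ.verts - 1 - R.card) := by
  sorry

/-- C10: the lowest coefficient (uses C8, C9) -/
theorem lowest (Γ : Ribbon k) (hΓ : Γ.Planar) (hk : 0 < k) (R : Finset (Fin k)) 
    (hR : Dominated (dual Γ) R) : 
    GE (PP Γ R) (4 * R.card - 2 * Γ.verts + 2) ∧ 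
      |(PP Γ R).coeff (4 * R.card - 2 * Γ.verts + 2)| = 1 := by
  sorry

/-- C11: the dual state sum (uses C2) -/
theorem PP_dual (Γ : Ribbon k) (R : Finset (Fin k)) (j : ℤ) :
    (PP Γ R).coeff j = (PP (dual Γ) R).coeff (2 * k - 4 * R.card - j) := by
  sorry

end Pool.Agent.H891R2.CA
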